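import Pool.Agent.H.MP_4f92f0_co.G

set_option autoImplicit false

namespace Pool.Agent.Results.MP_4f92f0_co.Ex
open Pool.Agent.H.MP_4f92f0_co

theorem result : ∃ n ≤ 3 ^ 2 + 3, ∃ K : Pt (DualNumber (ZMod 3)) → ℕ,
    IsMax K n ∧ ∃ x, 2 ≤ K x := by
  refine ⟨8, by norm_num, ?_⟩
  have b : BddAbove (size '' {K : Pt R → ℕ | IsArc K 8}) :=
    ⟨117 * 8, by rintro _ ⟨K, h, rfl⟩; exact bdd h⟩
  obtain ⟨K, h, e⟩ := Nat.sSup_mem (Set.Nonempty.image size ⟨KK, KK_arc⟩) b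
  have m : ∀ K' : Pt R → ℕ, IsArc K' 8 → size K' ≤ size K := fun K' h' =>
    e ▸ le_csSup b ⟨K', h', rfl⟩
  by_cases p : ∀ x, K x ≤ 1
  · exact ⟨KK, ⟨KK_arc, fun K' h' => KK_sz ▸ (m K' h').trans (proj h p)⟩, pt 0,
      ((KK_pt 0).trans f4.2).ge⟩
  · push Not at p
    exact ⟨K, ⟨h, m⟩, p⟩

end Pool.Agent.Results.MP_4f92f0_co.Ex
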